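import Pool.Agent.AT2.Stmts
import Pool.Agent.Helper34_K9.INX

/-! Squad AT2, row ORJ: orthogonality for the powers of `u`. -/

open scoped BigOperators

noncomputable section

namespace Pool.Agent.PP.T2.H60

open Pool.Agent.Helper51_AWC Pool.Agent.Helper79_WRA Pool.Agent.PP Pool.Agent.PP.KF
open Pool.Agent.PP.K9 Pool.Agent.PP.K9.H97 Pool.Agent.PP.H75 Pool.Agent.PP.T3

attribute [local instance] Ideal.Quotient.field

/-- a number which is one modulo `ℓ`, with a power prime to `ℓ` which is one modulo `ℓ ^ k` -/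
theorem one_mod {ℓ c m k : ℕ} (hp : ℓ.Prime) (hc : c ≡ 1 [MOD ℓ]) (hm : ¬ ℓ ∣ m)
    (hcm : c ^ m ≡ 1 [MOD ℓ ^ k]) : c ≡ 1 [MOD ℓ ^ k] := by
  set x : ZMod (ℓ ^ k) := (c : ZMod (ℓ ^ k)) with hx
  have h1 : x ^ m = 1 := by
    rw [hx, ← Nat.cast_pow, ← Nat.cast_one]
    exact (ZMod.natCast_eq_natCast_iff _ _ _).2 hcm
  have h2 : x ^ ℓ ^ k = 1 := by
    have h3 : ((ℓ : ℤ)) ∣ (c : ℤ) - 1 := by
      have := hc.symm.dvd
      rw [Nat.cast_one] at this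
      exact this
    have h4 := dvd_sub_pow_of_dvd_sub (R := ℤ) (p := ℓ) h3 k
    rw [one_pow] at h4
    have h5 : ((ℓ ^ k : ℕ) : ℤ) ∣ ((c ^ ℓ ^ k : ℕ) : ℤ) - ((1 : ℕ) : ℤ) := by
      push_cast
      exact (pow_dvd_pow _ (Nat.le_succ k)).trans h4
    have h6 : 1 ≡ c ^ ℓ ^ k [MOD ℓ ^ k] := (Nat.modEq_iff_dvd).2 h5
    rw [hx, ← Nat.cast_pow, ← Nat.cast_one]
    exact (ZMod.natCast_eq_natCast_iff _ _ _).2 h6.symm
  have h3 : orderOf x ∣ Nat.gcd m (ℓ ^ k) :=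
    Nat.dvd_gcd (orderOf_dvd_of_pow_eq_one h1) (orderOf_dvd_of_pow_eq_one h2)
  have h4 : Nat.gcd m (ℓ ^ k) = 1 :=
    Nat.Coprime.pow_right k ((Nat.Prime.coprime_iff_not_dvd hp).2 hm).symm
  rw [h4, Nat.dvd_one, orderOf_eq_one_iff] at h3
  rw [← ZMod.natCast_eq_natCast_iff, Nat.cast_one]
  exact h3

theorem conj_pow_pow {G : Type} [Group G] {t u : G} {c : ℕ} (h : t * u * t⁻¹ = u ^ c) (m : ℕ) :
    t ^ m * u * (t ^ m)⁻¹ = u ^ c ^ m := by
  induction m with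
  | zero => simp
  | succ m ih =>
    have e : t ^ (m + 1) * u * (t ^ (m + 1))⁻¹ = t * (t ^ m * u * (t ^ m)⁻¹) * t⁻¹ := by
      rw [pow_succ']
      group
    rw [e, ih, ← conj_pow, h, ← pow_mul, pow_succ, mul_comm]

/-- the normaliser of `V` normalises the centraliser -/
theorem norm_cent {G : Type} [Group G] (V : Subgroup G) :
    Subgroup.normalizer (V : Set G) ≤
      Subgroup.normalizer (Subgroup.centralizer (V : Set G) : Set G) := by
  have h0 : ∀ n ∈ Subgroup.normalizer (V : Set G), ∀ x ∈ Subgroup.centralizer (V : Set G),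
      n * x * n⁻¹ ∈ Subgroup.centralizer (V : Set G) := by
    intro n hn x hx
    rw [Subgroup.mem_centralizer_iff] at hx ⊢
    intro q hq
    have h1 : n⁻¹ * q * n ∈ V := by
      have h2 := (Subgroup.mem_normalizer_iff.1 (inv_mem hn) q).1 hq
      rwa [inv_inv] at h2
    have h2 := hx _ h1
    calc q * (n * x * n⁻¹) = n * ((n⁻¹ * q * n) * x) * n⁻¹ := by group
      _ = n * (x * (n⁻¹ * q * n)) * n⁻¹ := by rw [h2]
      _ = (n * x * n⁻¹) * q := by group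
  intro n hn
  rw [Subgroup.mem_normalizer_iff]
  intro x
  refine ⟨fun h => h0 n hn x h, fun h => ?_⟩
  have h1 := h0 n⁻¹ (inv_mem hn) _ h
  rwa [show n⁻¹ * (n * x * n⁻¹) * n⁻¹⁻¹ = x by group] at h1

/-- the group theory -/
theorem fix {ℓ : ℕ} (hp : ℓ.Prime) {G : Type} [Group G] [Finite G] {V T : Subgroup G} {u t : G}
    (hu : u ∈ V) {n : ℕ} (hun : u ^ ℓ ^ n = 1) (hT : T ≤ Subgroup.normalizer (V : Set G))
    (hix : ¬ ℓ ∣ (Subgroup.centralizer (V : Set G)).relIndex T) (ht : t ∈ T) {j j' : ℕ}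
    (hj : ¬ ℓ ∣ j) (hjj : j ≡ j' [MOD ℓ]) (htu : t * u ^ j' * t⁻¹ = u ^ j) : u ^ j = u ^ j' := by
  have hj' : ¬ ℓ ∣ j' := by
    intro h
    exact hj ((hjj.dvd_iff (dvd_refl ℓ)).2 h)
  set X := Subgroup.centralizer (V : Set G) with hX
  obtain ⟨r, hr, hro⟩ := (Nat.dvd_prime_pow hp).1 (orderOf_dvd_of_pow_eq_one hun)
  rcases Nat.eq_zero_or_pos r with h0 | h0
  · rw [h0, pow_zero, orderOf_eq_one_iff] at hro
    rw [hro, one_pow, one_pow]
  -- inverse of j'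
  have hcop : Nat.Coprime j' (ℓ ^ r) :=
    Nat.Coprime.pow_right _ ((Nat.Prime.coprime_iff_not_dvd hp).2 hj').symm
  obtain ⟨i, hi⟩ : ∃ i, j' * i ≡ 1 [MOD ℓ ^ r] := by
    obtain ⟨i, hi⟩ := Nat.exists_mul_mod_eq_one_of_coprime hcop (Nat.one_lt_pow h0.ne' hp.one_lt)
    refine ⟨i, ?_⟩
    unfold Nat.ModEq
    rw [hi.2, Nat.mod_eq_of_lt (Nat.one_lt_pow h0.ne' hp.one_lt)]
  have h1 : u ^ (j' * i) = u := by
    have : u ^ (j' * i) = u ^ 1 := pow_eq_pow_iff_modEq.2 (by rw [hro]; exact hi)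
    rw [this, pow_one]
  have h2 : t * u * t⁻¹ = u ^ (j * i) := by
    have h3 : t * u * t⁻¹ = (t * u ^ j' * t⁻¹) ^ i := by
      rw [conj_pow, ← pow_mul, h1]
    rw [h3, htu, ← pow_mul]
  set m := X.relIndex T with hm
  have hnorm : (X.subgroupOf T).Normal :=
    Subgroup.normal_subgroupOf_of_le_normalizer (hT.trans (norm_cent V))
  have h3 : t ^ m ∈ X := by
    have h4 := Subgroup.pow_index_mem (X.subgroupOf T) ⟨t, ht⟩
    exact Subgroup.mem_subgroupOf.1 h4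
  have h4 : u ^ (j * i) ^ m = u := by
    rw [← conj_pow_pow h2 m]
    have h5 := Subgroup.mem_centralizer_iff.1 h3 u hu
    rw [← h5, mul_assoc, mul_inv_cancel, mul_one]
  have h5 : (j * i) ^ m ≡ 1 [MOD ℓ ^ r] := by
    have : u ^ (j * i) ^ m = u ^ 1 := by rw [h4, pow_one]
    rw [← hro]
    exact pow_eq_pow_iff_modEq.1 this
  have h6 : j * i ≡ 1 [MOD ℓ] := by
    have h7 : j' * i ≡ 1 [MOD ℓ] := hi.of_dvd (dvd_pow_self ℓ h0.ne')
    exact (hjj.mul_right i).trans h7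
  have h7 := one_mod hp h6 hix h5
  have h8 : j ≡ j' [MOD ℓ ^ r] := by
    have h9 : j * i * j' ≡ 1 * j' [MOD ℓ ^ r] := h7.mul_right j'
    have h10 : j * (j' * i) ≡ j * 1 [MOD ℓ ^ r] := (Nat.ModEq.refl j).mul hi
    have e : j * i * j' = j * (j' * i) := by ring
    rw [e, one_mul] at h9
    rw [mul_one] at h10
    exact h10.symm.trans h9
  exact pow_eq_pow_iff_modEq.2 (by rw [hro]; exact h8)

theorem orj (co2 : T3.Co2Stmt) (lpw : T3.LpwStmt) (fus : T3.FusStmt) : OrjStmt := by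
  intro ℓ _ M _ hM G _ _ e V γ hL u hu b hb j j' hj hjj hne
  have hp : ℓ.Prime := Fact.out
  have hF : GoodF ℓ (FF M) := H50.fld ℓ Fact.out M hM
  have hj' : ¬ ℓ ∣ j' := by
    intro h
    exact hj ((hjj.dvd_iff (dvd_refl ℓ)).2 h)
  obtain ⟨hC, hLc⟩ := lpw ℓ (FF M) hF G e V γ hL u hu b hb j hj
  obtain ⟨hC', hLc'⟩ := lpw ℓ (FF M) hF G e V γ hL u hu b hb j' hj'
  obtain ⟨n, hn⟩ : ∃ n : ℕ, u ^ ℓ ^ n = 1 := by
    obtain ⟨n, hn⟩ := hL.tp.pg ⟨u, hu⟩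
    refine ⟨n, ?_⟩
    have := congrArg (fun v : V => (v : G)) hn
    exact this
  have hEl : ∀ i : ℕ, El ℓ (u ^ i) := by
    intro i
    refine ⟨n, ?_⟩
    rw [← pow_mul, mul_comm, pow_mul, hn, one_pow]
  have hix : ¬ ℓ ∣ (Subgroup.centralizer (V : Set G)).relIndex (Tg V γ) :=
    K9.H34.inx ℓ M hM G e hL.blk V hL.tp hL.ab γ hL.gam.supp hL.gam.blk hL.und
  have h1 := co2 ℓ M hM G (u ^ j) (u ^ j') (hEl j) (hEl j') b b hLc.blk.ix hLc'.blk.ix ?_
  · rw [hC, hC'] at h1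
    exact h1
  intro x hx
  have hxn : x ∈ Subgroup.normalizer ((Cu u : Subgroup G) : Set G) := by
    have h2 : ∀ z, z ∈ Cu u → x * z * x⁻¹ ∈ Cu u := by
      intro z hz
      rw [← hC'] at hz
      rw [← hC, ← hx]
      have h3 := Subgroup.mem_centralizer_singleton_iff.1 hz
      rw [Subgroup.mem_centralizer_singleton_iff]
      calc x * z * x⁻¹ * (x * u ^ j' * x⁻¹) = x * (z * u ^ j') * x⁻¹ := by group
        _ = x * (u ^ j' * z) * x⁻¹ := by rw [h3]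
        _ = _ := by group
    have h3 : ∀ z, x * z * x⁻¹ ∈ Cu u → z ∈ Cu u := by
      intro z hz
      rw [← hC, ← hx] at hz
      rw [← hC']
      have h3 := Subgroup.mem_centralizer_singleton_iff.1 hz
      rw [Subgroup.mem_centralizer_singleton_iff]
      have h4 : x * (z * u ^ j') * x⁻¹ = x * (u ^ j' * z) * x⁻¹ := by
        calc x * (z * u ^ j') * x⁻¹ = x * z * x⁻¹ * (x * u ^ j' * x⁻¹) := by group
          _ = _ := h3
          _ = x * (u ^ j' * z) * x⁻¹ := by group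
      exact mul_left_cancel (mul_right_cancel h4)
    rw [Subgroup.mem_normalizer_iff]
    exact fun z => ⟨h2 z, h3 z⟩
  rcases hb.blk.dich (hb.blk.cj hxn) with h2 | h2
  · exfalso
    apply hne
    have huj : ∀ i : ℕ, u ^ i ∈ V := fun i => V.pow_mem hu i
    obtain ⟨t, ht, htu⟩ := fus ℓ M hM G e V γ hL (u ^ j) (huj j) (u ^ j') (huj j') b b hLc hLc' x
      hx h2.symm
    exact fix hp hu hn inf_le_left hix ht hj hjj htu
  · exact h2

end Pool.Agent.PP.T2.H60
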