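import Pool.Agent.AT2.Stmts

/-! Squad AT2, row PR2: existence of the exponent `N`. -/

open scoped BigOperators

noncomputable section

namespace Pool.Agent.PP.T2.H60

open Pool.Agent.Helper51_AWC Pool.Agent.Helper79_WRA Pool.Agent.PP Pool.Agent.PP.KF
open Pool.Agent.PP.K9 Pool.Agent.PP.K9.H97 Pool.Agent.PP.H75 Pool.Agent.PP.T3

/-- the units which are one modulo an odd prime are the powers of `1 + ℓ` -/
theorem units_pow {ℓ : ℕ} (hp : ℓ.Prime) (hℓ2 : ℓ ≠ 2) (a j j' : ℕ) (hj : ¬ ℓ ∣ j)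
    (hjj : j ≡ j' [MOD ℓ]) : ∃ k : ℕ, j * (1 + ℓ) ^ k ≡ j' [MOD ℓ ^ (a + 1)] := by
  have : NeZero (ℓ ^ (a + 1)) := ⟨pow_ne_zero _ hp.ne_zero⟩
  have : NeZero ℓ := ⟨hp.ne_zero⟩
  have : Fact ℓ.Prime := ⟨hp⟩
  have hd : ℓ ∣ ℓ ^ (a + 1) := dvd_pow_self ℓ (by omega)
  have hj' : ¬ ℓ ∣ j' := by
    intro h
    exact hj ((hjj.dvd_iff (dvd_refl ℓ)).2 h)
  have hjc : Nat.Coprime j (ℓ ^ (a + 1)) :=
    Nat.Coprime.pow_right _ ((Nat.Prime.coprime_iff_not_dvd hp).2 hj).symm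
  have hjc' : Nat.Coprime j' (ℓ ^ (a + 1)) :=
    Nat.Coprime.pow_right _ ((Nat.Prime.coprime_iff_not_dvd hp).2 hj').symm
  have hwc : Nat.Coprime (1 + ℓ) (ℓ ^ (a + 1)) := by
    apply Nat.Coprime.pow_right
    rw [Nat.coprime_add_self_left]
    exact Nat.coprime_one_left ℓ
  obtain ⟨u, hu⟩ := (ZMod.isUnit_iff_coprime j (ℓ ^ (a + 1))).2 hjc
  obtain ⟨u', hu'⟩ := (ZMod.isUnit_iff_coprime j' (ℓ ^ (a + 1))).2 hjc'
  obtain ⟨w, hw⟩ := (ZMod.isUnit_iff_coprime (1 + ℓ) (ℓ ^ (a + 1))).2 hwc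
  have how : orderOf w = ℓ ^ a := by
    rw [← orderOf_units, hw, Nat.cast_add, Nat.cast_one]
    exact ZMod.orderOf_one_add_prime hp hℓ2 a
  set π := ZMod.unitsMap hd with hπ
  have hval : ∀ (x : (ZMod (ℓ ^ (a + 1)))ˣ) (i : ℕ), (x : ZMod (ℓ ^ (a + 1))) = (i : ZMod (ℓ ^ (a + 1))) →
      ((π x : (ZMod ℓ)ˣ) : ZMod ℓ) = (i : ZMod ℓ) := by
    intro x i hx
    rw [hπ, ZMod.unitsMap_val, hx]
    simp
  have hwk : w ∈ π.ker := by
    rw [MonoidHom.mem_ker]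
    ext
    rw [hval w (1 + ℓ) hw]
    simp
  have hck : u' * u⁻¹ ∈ π.ker := by
    rw [MonoidHom.mem_ker, map_mul, map_inv, mul_inv_eq_one]
    ext
    rw [hval u' j' hu', hval u j hu]
    exact ((ZMod.natCast_eq_natCast_iff _ _ _).2 hjj).symm
  have hle : Subgroup.zpowers w ≤ π.ker := by
    rw [Subgroup.zpowers_le]
    exact hwk
  have hcard : Nat.card π.ker = ℓ ^ a := by
    have h1 := Subgroup.card_mul_index π.ker
    have h2 : π.ker.index = Nat.card (ZMod ℓ)ˣ := by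
      rw [Subgroup.index_ker, MonoidHom.range_eq_top.2 (ZMod.unitsMap_surjective hd)]
      exact Nat.card_congr Subgroup.topEquiv.toEquiv
    have h3 : Nat.card (ZMod ℓ)ˣ = ℓ - 1 := by
      rw [Nat.card_eq_fintype_card, ZMod.card_units]
    have h4 : Nat.card (ZMod (ℓ ^ (a + 1)))ˣ = ℓ ^ a * (ℓ - 1) := by
      rw [Nat.card_eq_fintype_card, ZMod.card_units_eq_totient, Nat.totient_prime_pow_succ hp]
    rw [h2, h3, h4] at h1
    have h5 : 0 < ℓ - 1 := by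
      have := hp.two_le
      omega
    exact Nat.eq_of_mul_eq_mul_right h5 h1
  have heq : Subgroup.zpowers w = π.ker := by
    apply Subgroup.eq_of_le_of_card_ge hle
    rw [hcard, Nat.card_zpowers, how]
  rw [← heq] at hck
  obtain ⟨k, hk⟩ := mem_powers_iff_mem_zpowers.2 hck
  refine ⟨k, ?_⟩
  rw [← ZMod.natCast_eq_natCast_iff, Nat.cast_mul, Nat.cast_pow, ← hu, ← hu', ← hw]
  have h1 : u * w ^ k = u' := by
    have h2 : w ^ k = u' * u⁻¹ := hk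
    rw [h2, mul_comm u', ← mul_assoc, mul_inv_cancel, one_mul]
  rw [← h1]
  simp

theorem pr2 : Pr2Stmt := by
  intro ℓ hℓ hℓ2 G _ _
  have hp : ℓ.Prime := hℓ.out
  set n := Nat.card G with hn
  have hn0 : n ≠ 0 := Nat.card_pos.ne'
  set a := n.factorization ℓ with ha
  set m := n / ℓ ^ a with hm
  have hnm : ℓ ^ a * m = n := Nat.ordProj_mul_ordCompl_eq_self n ℓ
  have hcop : Nat.Coprime ℓ m := Nat.coprime_ordCompl hp hn0
  have hc2 : Nat.Coprime (ℓ ^ (a + 1)) m := Nat.Coprime.pow_left _ hcop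
  obtain ⟨N, hN1, hN2⟩ := Nat.chineseRemainder hc2 (1 + ℓ) 1
  have hNl1 : Nat.Coprime N ℓ := by
    have h1 : N ≡ 1 + ℓ [MOD ℓ] := hN1.of_dvd (dvd_pow_self ℓ (by omega))
    have h2 := h1.gcd_eq
    have h3 : Nat.gcd (1 + ℓ) ℓ = 1 := by
      have : Nat.Coprime (1 + ℓ) ℓ := by
        rw [Nat.coprime_add_self_left]
        exact Nat.coprime_one_left ℓ
      exact this
    rw [h3] at h2
    exact h2
  have hNm : Nat.Coprime N m := by
    have := hN2.gcd_eq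
    rw [Nat.gcd_one_left] at this
    exact this
  have hord : ∀ y : G, El ℓ y → orderOf y ∣ ℓ ^ (a + 1) := by
    intro y hy
    obtain ⟨i, hi⟩ := hy
    have h3 : orderOf y ∣ ℓ ^ i := orderOf_dvd_of_pow_eq_one hi
    have h4 : orderOf y ∣ ℓ ^ a * m := by
      rw [hnm]
      exact orderOf_dvd_natCard y
    have h5 : Nat.Coprime (orderOf y) m :=
      Nat.Coprime.coprime_dvd_left h3 (Nat.Coprime.pow_left _ hcop)
    exact (h5.dvd_of_dvd_mul_right h4).trans (pow_dvd_pow _ (by omega))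
  refine ⟨N, ?_, ?_, ?_, ?_⟩
  · rw [← hn, ← hnm]
    exact Nat.Coprime.mul_right (Nat.Coprime.pow_right _ hNl1) hNm
  · intro g hg
    have h1 : orderOf g ∣ m := by
      have h2 : orderOf g ∣ ℓ ^ a * m := by
        rw [hnm]
        exact orderOf_dvd_natCard g
      exact (Nat.Coprime.pow_right a hg).dvd_of_dvd_mul_left h2
    have h2 : g ^ N = g ^ 1 := pow_eq_pow_iff_modEq.2 (hN2.of_dvd h1)
    rw [h2, pow_one]
  · intro y hy
    exact pow_eq_pow_iff_modEq.2 (hN1.of_dvd (hord y hy))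
  · intro j j' hj hjj
    obtain ⟨k, hk⟩ := units_pow hp hℓ2 a j j' hj hjj
    refine ⟨k, fun y hy => ?_⟩
    rw [← pow_mul]
    apply pow_eq_pow_iff_modEq.2
    have h1 : j * N ^ k ≡ j * (1 + ℓ) ^ k [MOD ℓ ^ (a + 1)] :=
      (Nat.ModEq.refl j).mul (hN1.pow k)
    exact (h1.trans hk).of_dvd (hord y hy)

end Pool.Agent.PP.T2.H60
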